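import Pool.Agent.H27.CAL.Stmts2

/-!
# Project CAL, module REC: recursive construction of a sequence by finite blocks
-/

open scoped BigOperators ENNReal Topology
open Filter

namespace CAL

/-- the list of the terms constructed before step n -/
def rec_L {R : Type*} (new : ℕ → List R → List R) : ℕ → List R
  | 0 => []
  | n + 1 => rec_L new n ++ new n (rec_L new n)

theorem rec_prefix {R : Type*} (new : ℕ → List R → List R) {n m : ℕ} (h : n ≤ m) :
    rec_L new n <+: rec_L new m := by
  induction m, h using Nat.le_induction with
  | base => exact List.prefix_rfl
  | succ m _ ih => exact ih.trans (List.prefix_append _ _)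

theorem rec_len_mono {R : Type*} (new : ℕ → List R → List R) :
    Monotone (fun n => (rec_L new n).length) :=
  fun _ _ h => (rec_prefix new h).length_le

theorem rec_len_unbdd {R : Type*} (new : ℕ → List R → List R)
    (h : ∀ n, ∃ m ≥ n, ∀ l, new m l ≠ []) (k : ℕ) : ∃ n, k ≤ (rec_L new n).length := by
  induction k with
  | zero => exact ⟨0, Nat.zero_le _⟩
  | succ k ih =>
    obtain ⟨n, hn⟩ := ih
    obtain ⟨m, hm, hl⟩ := h n
    refine ⟨m + 1, ?_⟩
    have h1 : (rec_L new n).length ≤ (rec_L new m).length := rec_len_mono new hm
    have h2 : 0 < (new m (rec_L new m)).length := List.length_pos_iff.2 (hl _)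
    show k + 1 ≤ (rec_L new m ++ new m (rec_L new m)).length
    rw [List.length_append]
    omega

theorem cal_rec.{u} : RECStmt.{u} := by
  intro R _ new h
  have hex : ∀ i : ℕ, ∃ n, i < (rec_L new n).length := fun i => rec_len_unbdd new h (i + 1)
  choose N hN using hex
  have key : ∀ (n i : ℕ) (hi : i < (rec_L new n).length),
      (rec_L new (N i)).getD i default = (rec_L new n)[i] := by
    intro n i hi
    rw [List.getD_eq_getElem _ _ (hN i)]
    rcases le_total n (N i) with hle | hle
    · exact ((rec_prefix new hle).getElem hi).symm
    · exact (rec_prefix new hle).getElem (hN i)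
  have h0 : ∀ n, (List.range (rec_L new n).length).map
      (fun i => (rec_L new (N i)).getD i default) = rec_L new n := by
    intro n
    apply List.ext_getElem
    · simp
    · intro i h1 h2
      rw [List.getElem_map, List.getElem_range]
      exact key n i h2
  refine ⟨fun i => (rec_L new (N i)).getD i default, fun n => (rec_L new n).length, rfl,
    rec_len_mono new, ?_, ?_⟩
  · apply tendsto_atTop_atTop_of_monotone (rec_len_mono new)
    intro k
    obtain ⟨n, hn⟩ := rec_len_unbdd new h k
    exact ⟨n, hn⟩
  · intro n
    rw [h0 n]
    have hlen : (rec_L new (n + 1)).length =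
        (rec_L new n).length + (new n (rec_L new n)).length := by
      show (rec_L new n ++ new n (rec_L new n)).length = _
      rw [List.length_append]
    apply List.ext_getElem
    · simp only [List.length_map, List.length_range']
      omega
    · intro i h1 h2
      rw [List.getElem_map, List.getElem_range']
      have h3 : (rec_L new n).length + 1 * i < (rec_L new (n + 1)).length := by
        omega
      rw [key (n + 1) _ h3]
      show (rec_L new n ++ new n (rec_L new n))[(rec_L new n).length + 1 * i] = _
      rw [List.getElem_append_right (by omega)]
      congr 1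
      omega

end CAL
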