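import Pool.Agent.H27.CAL.Stmts2

/-!
# Project CAL, module REX: seminormalised rapidly increasing sequences exist
-/

open scoped BigOperators ENNReal Topology
open Filter

namespace CAL

theorem rex_fam {Ch : Finset ℕ → Prop} (F : FamSys Ch) (j n : ℕ) : F.Fam j {n} := by
  rcases F.ext j ∅ with ⟨l, hl⟩ | h
  · have := hl.2.2.1
    simp at this
  · have := h n (by simp)
    simpa using this

section
variable {𝕜 : Type*} [RCLike 𝕜] {A : Type*} [PartialOrder A] {Y : Type*} [NormedAddCommGroup Y]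
  [NormedSpace 𝕜 Y] {τ : TreeLev A}

theorem rex_exists (D : Dat 𝕜 Y τ) {Ch : Finset ℕ → Prop} (F : FamSys Ch) (w : Wts)
    (R : Rich D F w) (N : ℕ) : ∃ γ, N < D.wt γ := by
  obtain ⟨j, hj, hNj⟩ := w.inf1.exists_gt N
  obtain ⟨n0, hn0⟩ := R.even_rich j (Or.inl hj) 0 0 (by simp [nrm]) (by simp) (by simp) 1 one_pos
  obtain ⟨γ, -, h2, -, -⟩ := hn0 n0 le_rfl none (fun _ => rex_fam F j n0) (by simp)
  exact ⟨γ, by omega⟩

theorem rex_norm_sgS (γ : ℕ) : ‖(sgS A Y γ : BB 𝕜 A Y)‖ ≤ 1 := by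
  unfold sgS
  rw [Prod.norm_def]
  apply max_le
  · simp
  · simp only
    rw [lp.norm_single (by simp)]
    simp

theorem rex_sgS_ne {γ γ' : ℕ} (h : γ' ≠ γ) : (toPt (sgS A Y γ : BB 𝕜 A Y)).2 γ' = 0 := by
  show (lp.single (E := fun _ : ℕ => 𝕜) ∞ γ (1 : 𝕜)) γ' = 0
  rw [lp.single_apply_ne _ _ _ h]

theorem cal_rex (D : Dat 𝕜 Y τ) (hL : LOCSStmt D) (hB : BIOStmt D) : REXStmt D := by
  intro Ch F w R
  have hex := rex_exists D F w R
  choose g hg using hex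
  let γ : ℕ → ℕ := fun k => Nat.rec (g 0) (fun _ ih => g (D.lev ih)) k
  have hγ : ∀ k, D.lev (γ k) < D.wt (γ (k + 1)) := fun k => hg (D.lev (γ k))
  obtain ⟨-, -, -, -, -, hco, -, hran, -⟩ := hB
  refine ⟨6, fun k => D.dv (γ k), fun k => D.lev (γ k) - 1, fun k => D.lev (γ k),
    fun k => D.wt (γ k), ⟨?_, ?_, ?_, ?_, ?_, ?_, ?_⟩, ?_⟩
  · intro k
    exact hran (γ k)
  · intro k
    have := D.lev_pos (γ k)
    show D.lev (γ k) - 1 < D.lev (γ k)
    omega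
  · intro k
    have := hγ k
    have := D.wt_le (γ (k + 1))
    show D.lev (γ k) ≤ D.lev (γ (k + 1)) - 1
    omega
  · intro k
    have h1 := D.norm_EX_le (D.lev (γ k)) (sgS A Y (γ k))
    have h2 := rex_norm_sgS (𝕜 := 𝕜) (A := A) (Y := Y) (γ k)
    show ‖D.EX (D.lev (γ k)) (sgS A Y (γ k))‖ ≤ 6
    linarith
  · intro k
    exact hγ k
  · apply strictMono_nat_of_lt_succ
    intro k
    exact lt_of_le_of_lt (D.wt_le _) (hγ k)
  · intro k β hβ
    have h1 := hL (sgS A Y (γ k)) (D.lev (γ k)) (D.wt β) (fun γ' _ hw => by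
      apply rex_sgS_ne
      intro he
      rw [he] at hw
      change D.wt β < D.wt (γ k) at hβ
      omega) β rfl
    refine h1.trans ?_
    have h2 := rex_norm_sgS (𝕜 := 𝕜) (A := A) (Y := Y) (γ k)
    have h3 := mm_inv_pos (D.wt β)
    have h4 : 6 * ‖(sgS A Y (γ k) : BB 𝕜 A Y)‖ ≤ 6 := by linarith
    exact mul_le_mul_of_nonneg_right h4 h3.le
  · intro k
    have h1 := D.norm_co_le (γ k) (D.dv (γ k))
    rw [hco, norm_one] at h1
    exact h1

end

end CAL
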